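import Mathlib
import Pool.Agent.Q7.RL.Orders

/-!
# No poles of L(E/F, s) where L(E/M, s) has order at most two

`M/K` is a Galois extension of number fields with group `M ≃ₐ[K] M`, an arbitrary finite group, and
`E` is an elliptic curve over `K` with an integral equation `W` (`IsModel E W`).

The L-functions are real ones. `LSeries V` is the Euler product `L(E/F, s)` of the problem, computed
from the models `V`, minimal at all primes of `F` (`MinimalModels`), `Re s > 3/2`.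
`Pool.Agent.Q92.RT.twistedL M W φ` is `L(E ⊗ φ, s)` for a class function `φ` of the Galois group:
`exp ∑ φ(Frob_v ^ n) (α_v ^ n + β_v ^ n) / (n q_v ^ (n s))` over `n ≥ 1` and the primes `v` of `K` which do not
divide `6` and the discriminant of `W` and are unramified in `M`; the finitely many Euler factors left
out have no zeros and poles for `Re s ≥ 1`. `Continues f g` says that `f` is meromorphic on `ℂ` and
equal to `g` for `Re s > 3/2`; `HasOrder g s₀ n` and `LOrder E s₀ n` say that `g`, or `L(E, s)`, has a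
meromorphic continuation to `ℂ`, of order `n` at `s₀`.

`Pool.Agent.Q92.RT.Automorphic M W s₀` is the only assumption: `L(E ⊗ χ, s)` has a meromorphic
continuation for the irreducible characters `χ` of the Galois group, and `L(E/M^H ⊗ ψ, s)` has one
which is holomorphic at `s₀` for the linear characters `ψ` of the SOLVABLE subgroups `H`. These are
instances of the conjecture, known if `E` is automorphic over `M` (Brauer; solvable descent). For the
other subgroups nothing is known.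

`Pool.Agent.Y788.res G` is the intersection of the derived series of `G`. For a linear character `D`,
`Pool.Agent.Q7.TZ.dual D χ` is `g ↦ D g * χ g⁻¹`, and `Pool.Agent.Q7.TZ.Symplectic D χ` says that
`dual D χ = χ` and that `|G|⁻¹ ∑ χ (g ^ 2) * (D g)⁻¹` is `-1` (for `D = 1`: `χ` is symplectic).
`FunctionalEquation d f` is the functional equation `Λ(s) = w Λ(2 - s)` for
`Λ(s) = N ^ (s/2) ((2π) ^ (-s) Γ(s)) ^ d f(s)` with some `N > 0` and `w`.
-/

set_option autoImplicit false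

open NumberField IsDedekindDomain Pool.Agent.H541R3.ART Pool.Agent.W446.AS Pool.Agent.Y788
  Pool.Agent.H302R2 Pool.Agent.H302R3
  Pool.Agent.Q7.TZ Pool.Agent.Q7.SZ Pool.Agent.Q7.RL Pool.Agent.Q92.RT Pool.Agent.W353.NF
  Pool.Agent.H341R2.EC
open Pool.Agent.TH322.BC.Edge (MinimalModels LSeries)

/-- Let `E` be an elliptic curve over the number field `K` and `M/K` a Galois extension.
(1) Let `s₀` be a point with `Re s₀ ≥ 1`, let `n χ` and `r F` be the orders at `s₀` of `L(E ⊗ χ, s)` and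
of `L(E/F, s)`, and suppose that `r M ≤ 2`. Then `r F ≥ 0` for ALL fields `F` between `K` and `M`, and
`L(E/F ⊗ ψ, s)` is holomorphic at `s₀` for all linear characters `ψ` of the Galois group of `M/F`.
Either `n χ = 0` for all `χ` which are nontrivial on `res G`, or `r M = 2` and `res G` has a normal
subgroup `N` such that `res G / N` has exactly one involution and such that `N` acts trivially and this
involution acts as `-1` in all `χ` with `n χ ≠ 0`. If `r M = 2`, there is a linear character `D` of `G`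
such that `n (dual D χ) = n χ` for all `χ`, and one of the following holds: `n μ = 2` for a linear
character `μ` with `μ ^ 2 = D`, and all other `n χ` are `0`; or `n χ₀ = 1` for one `χ₀` which is
symplectic for `D`, and all other `n χ` are `0` except for at most two which are `-1`; or
`n χ₀ = n (dual D χ₀) = 1` for one `χ₀ ≠ dual D χ₀`, and all other `n χ` are `0` except for at most
one which is `-1`; the characters with `n χ = -1` are symplectic for `D`.
(2) If the order of `L(E/M, s)` is at most `2` at all points with `Re s ≥ 1`, then for every field `F`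
between `K` and `M` the function `L(E/F, s)` has a meromorphic continuation to `ℂ` which is
holomorphic for `Re s ≥ 1`; and if this continuation satisfies the functional equation, then
`L(E/F, s)` has an entire continuation. -/
theorem Pool.Agent.Results.MP_7ed9c3_nt.DescentAtDoubleZeros.result
    (K M : Type) [Field K] [NumberField K] [Field M] [NumberField M] [Algebra K M] [IsGalois K M]
    (E : WeierstrassCurve K) (hE : E.IsElliptic) (W : WeierstrassCurve (𝓞 K)) (hW : IsModel E W) :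
    (∀ s₀ : ℂ, 1 ≤ s₀.re → Automorphic M W s₀ →
      ∃ (n : ((M ≃ₐ[K] M) → ℂ) → ℤ) (r : IntermediateField K M → ℤ), Orders E W s₀ n r ∧
        (r ⊤ ≤ 2 →
          (∀ F, 0 ≤ r F) ∧
          (∀ (H : Subgroup (M ≃ₐ[K] M)) (ψ : H →* ℂˣ), ∃ k : ℤ, 0 ≤ k ∧
            HasOrder (twistedL M W (induced H ψ)) s₀ k) ∧
          ((∀ χ ∈ Irr (M ≃ₐ[K] M), (∃ x ∈ res (M ≃ₐ[K] M), χ x ≠ χ 1) → n χ = 0) ∨
            (r ⊤ = 2 ∧ ∃ (N : Subgroup (res (M ≃ₐ[K] M))) (_ : N.Normal),
              (∃! t : res (M ≃ₐ[K] M) ⧸ N, t ≠ 1 ∧ t * t = 1) ∧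
              ∀ χ ∈ Irr (M ≃ₐ[K] M), n χ ≠ 0 → (∀ k ∈ N, χ k = χ 1) ∧
                ∀ z : res (M ≃ₐ[K] M), z ∉ N → z * z ∈ N → χ z = -χ 1)) ∧
          (r ⊤ = 2 → ∃ D : (M ≃ₐ[K] M) →* ℂˣ,
            (∀ χ ∈ Irr (M ≃ₐ[K] M), dual D χ ∈ Irr (M ≃ₐ[K] M) ∧ n (dual D χ) = n χ) ∧
            ((∃ μ : (M ≃ₐ[K] M) →* ℂˣ, μ * μ = D ∧ n (fun g => ((μ g : ℂˣ) : ℂ)) = 2 ∧
                ∀ χ ∈ Irr (M ≃ₐ[K] M), χ ≠ (fun g => ((μ g : ℂˣ) : ℂ)) → n χ = 0) ∨
              (∃ χ₀ ∈ Irr (M ≃ₐ[K] M), Symplectic D χ₀ ∧ n χ₀ = 1 ∧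
                ∃ N : Finset ((M ≃ₐ[K] M) → ℂ), N.card ≤ 2 ∧
                  (∀ ψ ∈ N, ψ ∈ Irr (M ≃ₐ[K] M) ∧ Symplectic D ψ ∧ n ψ = -1) ∧
                  ∀ χ ∈ Irr (M ≃ₐ[K] M), χ ≠ χ₀ → χ ∉ N → n χ = 0) ∨
              (∃ χ₀ ∈ Irr (M ≃ₐ[K] M), dual D χ₀ ≠ χ₀ ∧ n χ₀ = 1 ∧ n (dual D χ₀) = 1 ∧
                ∃ N : Finset ((M ≃ₐ[K] M) → ℂ), N.card ≤ 1 ∧
                  (∀ ψ ∈ N, ψ ∈ Irr (M ≃ₐ[K] M) ∧ Symplectic D ψ ∧ n ψ = -1) ∧
                  ∀ χ ∈ Irr (M ≃ₐ[K] M), χ ≠ χ₀ → χ ≠ dual D χ₀ → χ ∉ N → n χ = 0))))) ∧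
    ((∀ s₀ : ℂ, 1 ≤ s₀.re → Automorphic M W s₀ ∧
        ∃ k : ℤ, k ≤ 2 ∧ LOrder (E.map (algebraMap K M)) s₀ k) →
      ∀ (F : IntermediateField K M) (V : HeightOneSpectrum (𝓞 F) → WeierstrassCurve (𝓞 F)),
        MinimalModels (E.map (algebraMap K F)) V →
        (∃ f : ℂ → ℂ, Continues f (LSeries V) ∧ ∀ s : ℂ, 1 ≤ s.re → AnalyticAt ℂ f s) ∧
        ∀ f : ℂ → ℂ, Continues f (LSeries V) → FunctionalEquation (Module.finrank ℚ F) f →
          ∃ g : ℂ → ℂ, Differentiable ℂ g ∧ ∀ s : ℂ, 3 / 2 < s.re → g s = LSeries V s) := by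
  have main : ∀ s₀ : ℂ, 1 ≤ s₀.re → Automorphic M W s₀ → ∀ (n : ((M ≃ₐ[K] M) → ℂ) → ℤ)
      (r : IntermediateField K M → ℤ), Orders E W s₀ n r → r ⊤ ≤ 2 →
      ∀ (H : Subgroup (M ≃ₐ[K] M)) (ψ : H →* ℂˣ), ∃ k : ℤ, 0 ≤ k ∧
        HasOrder (twistedL M W (induced H ψ)) s₀ k := by
    intro s₀ hs a n r ho h2 H ψ
    obtain ⟨k, hk⟩ := Int.eq_ofNat_of_zero_le (ho.nonneg hE hW hs a)
    have hr := ho.bot hE hW hs a
    rw [hk] at hr
    have hk2 : k ≤ 2 := by omega
    have h0 := ((TwistData.ofCurve a).toArtin hk2 hr).hecke H ψ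
    obtain ⟨m, hm⟩ := Lin_order_ne_top (TwistData.ofCurve a) H ψ
    refine ⟨m, ?_, (ind_iff a H ψ m).2 hm⟩
    change 0 ≤ meromorphicOrderAt ((TwistData.ofCurve a).Lin H ψ) s₀ at h0
    rw [hm] at h0
    exact_mod_cast h0
  have field : ∀ s₀ : ℂ, 1 ≤ s₀.re → Automorphic M W s₀ → ∀ (n : ((M ≃ₐ[K] M) → ℂ) → ℤ)
      (r : IntermediateField K M → ℤ), Orders E W s₀ n r → r ⊤ ≤ 2 → ∀ F, 0 ≤ r F := by
    intro s₀ hs a n r ho h2 F
    obtain ⟨k, hk, h3⟩ := main s₀ hs a n r ho h2 F.fixingSubgroup 1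
    have h4 := (ind_iff a F.fixingSubgroup 1 k).1 h3
    rw [ho.lin hE hW hs a F] at h4
    have h5 : r F = k := by exact_mod_cast h4
    omega
  refine ⟨fun s₀ hs a => ?_, fun h F V hV => ?_⟩
  · obtain ⟨n, r, ho⟩ := exists_orders (M := M) hE hW hs a
    refine ⟨n, r, ho, fun h2 => ⟨field s₀ hs a n r ho h2, main s₀ hs a n r ho h2, ?_, ?_⟩⟩
    · obtain ⟨k, hk⟩ := Int.eq_ofNat_of_zero_le (ho.nonneg hE hW hs a)
      have hr := ho.bot hE hW hs a
      rw [hk] at hr
      have hk2 : k ≤ 2 := by omega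
      have hpr : ∀ χ ∈ Irr (M ≃ₐ[K] M), n χ ≠ 0 →
          pr (theta (TwistData.ofCurve a).ord) χ ≠ 0 := by
        intro χ hχ h
        rw [pr_theta _ hχ, ho.ord a hχ]
        exact_mod_cast h
      have hH := heil_of_sol (TwistData.ofCurve a).isSol (theta_virt (TwistData.ofCurve a).ord) hk2
        ((TwistData.ofCurve a).theta_one hr)
      rcases dich hH (theta_virt (TwistData.ofCurve a).ord) hk2
        ((TwistData.ofCurve a).theta_one hr) with h | ⟨h1, N, h2, h3, h4⟩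
      · left
        intro χ hχ hx
        have h5 := (artin_of_const ((TwistData.ofCurve a).toArtin hk2 hr) hk2 hr h).1 χ hχ hx
        change meromorphicOrderAt ((TwistData.ofCurve a).L χ) s₀ = 0 at h5
        rw [ho.irr a hχ] at h5
        exact_mod_cast h5
      · right
        refine ⟨by rw [hk, h1]; rfl, N, h2, h3, fun χ hχ h5 => h4 χ hχ (hpr χ hχ h5)⟩
    · intro hr2
      have hr := ho.bot hE hW hs a
      rw [hr2] at hr
      have h1 : (theta (TwistData.ofCurve a).ord : (M ≃ₐ[K] M) → ℂ) 1 = 2 := by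
        rw [(TwistData.ofCurve a).theta_one (r := 2) hr]; simp
      obtain ⟨D, -, hdual, hshape, -⟩ :=
        Pool.Agent.Q7.SZ.shape_gen (TwistData.ofCurve a).ord (TwistData.ofCurve a).isSol h1
      refine ⟨D, fun χ hχ => ⟨(hdual χ hχ).1, ?_⟩, ?_⟩
      · rw [← ho.ord a hχ, ← ho.ord a (hdual χ hχ).1, (hdual χ hχ).2]
      · rcases hshape with ⟨μ, e1, e2, e3⟩ | ⟨χ₀, hχ₀, e1, e2, N, e3, e4, e5⟩ |
          ⟨χ₀, hχ₀, e1, e2, e2', N, e3, e4, e5⟩
        · left
          exact ⟨μ, e1, by rw [← ho.ord a (lin_irr μ), e2],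
            fun χ hχ hne => by rw [← ho.ord a hχ, e3 χ hχ hne]⟩
        · right; left
          exact ⟨χ₀, hχ₀, e1, by rw [← ho.ord a hχ₀, e2], N, e3, fun ψ hψ =>
            ⟨(e4 ψ hψ).1, (e4 ψ hψ).2.1, by rw [← ho.ord a (e4 ψ hψ).1, (e4 ψ hψ).2.2]⟩,
            fun χ hχ hne hN => by rw [← ho.ord a hχ, e5 χ hχ hne hN]⟩
        · right; right
          exact ⟨χ₀, hχ₀, e1, by rw [← ho.ord a hχ₀, e2],
            by rw [← ho.ord a (hdual χ₀ hχ₀).1, e2'], N, e3,
            fun ψ hψ =>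
              ⟨(e4 ψ hψ).1, (e4 ψ hψ).2.1, by rw [← ho.ord a (e4 ψ hψ).1, (e4 ψ hψ).2.2]⟩,
            fun χ hχ hne hne' hN => by rw [← ho.ord a hχ, e5 χ hχ hne hne' hN]⟩
  · have hEF : (E.map (algebraMap K F)).IsElliptic := inferInstance
    refine entire_of_lorder hEF (fun s hs => ?_) hV _
    obtain ⟨a, k, hk2, hk⟩ := h s hs
    obtain ⟨n, r, ho⟩ := exists_orders (M := M) hE hW hs a
    have hM := ho.eq_of_lorder_top hE hW hs a hk
    exact ⟨r F, field s hs a n r ho (by omega) F, ho.field F⟩
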