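import Pool.Agent.Q286.IX.EKT
import Pool.Agent.Q286.IX.All
import Pool.Agent.Q240.OW.K3

/-!
# MP_7ed9c3_nt: continuation of the L-series of an elliptic curve over a number field and the index of Weil's form

Let `E` be an elliptic curve over a number field `K` of degree `d`, such that `L(E/K, s + 1/2) = L_A(s) / L_B(s)`, where `L_A` and `L_B` are
L-functions with an Euler product, an entire completed function and a functional equation (products of automorphic L-functions over number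
fields).  This is known if `K` is totally real or a CM field: `E` is potentially automorphic and Brauer's theorem gives such a quotient.  The
completed L-function `Λ_E(s) = Λ_A(s - 1/2) / Λ_B(s - 1/2)` is then meromorphic with the functional equation; the conjecture of Hasse and Weil
says that `L(E/K, s)` has an entire continuation, that is that `Λ_E` has no poles.  A BAD POINT is a pole of `Λ_E`, or a zero off the line
`Re s = 1`; the orbits are `{s, 2 - conj s}`.

For `a > 0` let `W a` be Weil's quadratic form of `E/K` on the functions on `[-a, a]`.  It is written through the conductor `N`, the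
archimedean places, and the traces `α_v^k + β_v^k` of the powers of Frobenius for `Nv^k ≤ exp (2 a)` (numbers of points), so it is defined for
every `E/K`, and without any continuation.  The functions have degree at least `C a R`, `R = exp (2 a / M)`, `M = deg A + deg B`
(trigonometric polynomials on `[-a, a]`); the infinite degree (the whole form domain) is included.  `k` conditions are `k` linear forms, on all
functions; so a condition on the subspace given by `k` conditions says that the form has (almost) at most `k` negative squares.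

* (1) One scale.  For any `b < 2 π (Q_A Q_B)^(-1/M)` there are `C, κ > 0`, `b0`, `a0` such that for ONE `a ≥ a0`, any `Y` with
  `b0 a ≤ Y ≤ R` and any `k ≤ exp (κ Y)`: if the form is at least `-exp (-Y) ∫ |f|²` under some `k` conditions, then among any `k + 1`
  bad points of height at most `b R` which are isolated at the distance `δ = exp (-κ Y / a)` (a pole from the zeros, a zero from the
  poles and from the line) there are two which are at distance at most `2 δ`, up to the reflection `s ↦ 2 - conj s`.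
  So `k` negative squares at ONE scale bound the number of the poles and of the zeros off the line up to the height `b R`, with an
  almost exponentially small resolution.  For `k = 0` there is no isolated pole, and no isolated zero at distance more than `δ` from
  the line.
* (2) The index.  `Λ_E` has at most `k` orbits of bad points if and only if for all `a` the form is nonnegative under some `k`
  conditions, and if and only if for every `B`, for arbitrarily large `a`, it is at least `-exp (-B a) ∫ |f|²` under some `k` conditions.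
* (3) `L(E/K, s)` has an entire continuation, whose zeros with `Re s > 0` all have real part `1`, if and only if the form is nonnegative
  for all `a`, and if and only if for every `B`, for arbitrarily large `a`, it is at least `-exp (-B a) ∫ |f|²`.
* (4) The continuation alone.  Suppose that Weil's form `W_A` of `L_A` has the (finite) index `n`, that is `Λ_A` has exactly `n` orbits
  of zeros off the line (`n = 0`: the Riemann hypothesis for `L_A`; nothing is assumed on `L_B`).  Then `L(E/K, s)` has an entire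
  continuation if and only if the index of `q W_A + p W` is `n` for all integers `p, q ≥ 1`: the multiples of Weil's form of `E/K`
  do not change the index.
-/

set_option autoImplicit false

open Complex NumberField IsDedekindDomain MeasureTheory Filter Topology
open scoped ComplexConjugate

namespace Pool.Agent.Results.MP_7ed9c3_nt.IndexOfWeilForm

/-! ### L-functions with an entire completed function -/

/-- An L-function `L(s) = ∑ b(n) n^(-s)` of degree `m` and conductor `Q`, with archimedean parameters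
`α_j`, `Re α_j > -1/2`, and a pole of order at most `r` at `s = 1`, and with an Euler product:
`-L'/L = ∑ Λ(n) c(n) n^(-s)` (von Mangoldt's function), that is `b(n) log n = ∑_{d | n} Λ(d) c(d) b(n/d)`,
with `|c(n)| ≤ m √n`; here `c(p^k)` is the sum of the `k`-th powers of the Satake parameters at `p`, which
are at most `√p`.  The function `Λ` is entire of finite order and is, for large real part,
`(s (s - 1))^r Q^(s/2) ∏ Γ_ℝ(s + α_j) L(s)`; and it satisfies the functional equation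
`Λ(1 - s) = w conj Λ(conj s)`.  Products of L-functions of cuspidal automorphic representations of `GL(n)` over number fields have
all these properties. -/
structure LFunction where
  /-- the degree -/
  m : ℕ
  /-- the conductor -/
  Q : ℝ
  /-- the parameters `α` of the Gamma factors `Γ_ℝ(s + α)` -/
  α : Fin m → ℂ
  /-- the order of the pole -/
  r : ℕ
  /-- the coefficients -/
  b : ℕ → ℂ
  /-- the traces -/
  c : ℕ → ℂ
  /-- the root number -/
  w : ℂ
  /-- the completed function -/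
  Λ : ℂ → ℂ
  one_le_m : 1 ≤ m
  one_le_Q : 1 ≤ Q
  α_re : ∀ j, -1 / 2 < (α j).re
  r_le : r ≤ m
  b_one : b 1 = 1
  c_bound : ∀ n : ℕ, n ≠ 0 → ‖c n‖ ≤ m * Real.sqrt n
  euler : ∀ n : ℕ, n ≠ 0 → b n * ((Real.log n : ℝ) : ℂ) =
    ∑ d ∈ n.divisors, ((ArithmeticFunction.vonMangoldt d : ℝ) : ℂ) * c d * b (n / d)
  w_norm : ‖w‖ = 1
  entire : Differentiable ℂ Λ
  order : ∃ A ρ : ℝ, ∀ s : ℂ, ‖Λ s‖ ≤ Real.exp (A * (1 + ‖s‖) ^ ρ)
  fe : ∀ s : ℂ, Λ (1 - s) = w * (starRingEnd ℂ) (Λ ((starRingEnd ℂ) s))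
  dirichlet : ∃ σ : ℝ, ∀ s : ℂ, σ ≤ s.re → Λ s = (s * (s - 1)) ^ r *
    ((Q : ℂ) ^ (s / 2) * ∏ j, Gammaℝ (s + α j)) * LSeries b s

/-! ### Elliptic curves over number fields -/

/-- `W v` is, for every finite place `v`, an integral model of `E` with discriminant minimal at
`v`. -/
def MinimalModels {K : Type} [Field K] [NumberField K] (E : WeierstrassCurve K)
    (W : HeightOneSpectrum (𝓞 K) → WeierstrassCurve (𝓞 K)) : Prop :=
  ∀ v : HeightOneSpectrum (𝓞 K),
    (∃ C : WeierstrassCurve.VariableChange K, C • (W v).map (algebraMap (𝓞 K) K) = E) ∧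
    ∀ W' : WeierstrassCurve (𝓞 K),
      (∃ C : WeierstrassCurve.VariableChange K, C • W'.map (algebraMap (𝓞 K) K) = E) →
      ∀ n : ℕ, (W v).Δ ∈ v.asIdeal ^ n → W'.Δ ∈ v.asIdeal ^ n

open Classical in
/-- The Euler factor at `v`, `(1 - a_v Nv^{-s} + Nv^{1-2s})⁻¹` if the reduction at `v` is good and
`(1 - a_v Nv^{-s})⁻¹` if it is bad, where `a_v` is `Nv` minus the number of affine points of the
reduction of `W v`. -/
noncomputable def localFactor {K : Type} [Field K] [NumberField K]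
    (W : HeightOneSpectrum (𝓞 K) → WeierstrassCurve (𝓞 K)) (v : HeightOneSpectrum (𝓞 K))
    (s : ℂ) : ℂ :=
  (1 - ((Ideal.absNorm v.asIdeal : ℂ)
        - (Nat.card {xy : (𝓞 K ⧸ v.asIdeal) × (𝓞 K ⧸ v.asIdeal) //
            ((W v).map (Ideal.Quotient.mk v.asIdeal)).toAffine.Equation xy.1 xy.2} : ℂ))
        * (Ideal.absNorm v.asIdeal : ℂ) ^ (-s)
    + (if (W v).Δ ∈ v.asIdeal then 0 else (Ideal.absNorm v.asIdeal : ℂ))
        * (Ideal.absNorm v.asIdeal : ℂ) ^ (-2 * s))⁻¹

/-- The `L`-function `L(E/K, s)` in the half-plane of convergence, as the Euler product over all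
finite places. -/
noncomputable def LSeriesE {K : Type} [Field K] [NumberField K]
    (W : HeightOneSpectrum (𝓞 K) → WeierstrassCurve (𝓞 K)) (s : ℂ) : ℂ :=
  ∏' v : HeightOneSpectrum (𝓞 K), localFactor W v s

/-- An elliptic curve `E` over a number field `K`, with minimal models, and two L-functions `A` and `B` with
`L(E/K, s + 1/2) = L_A(s) / L_B(s)`; the poles cancel, and the quotient has the conductor `N` and the Gamma factor `Γ_ℂ(s + 1/2)^[K : ℚ]` of
`E/K`. -/
structure Curve where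
  /-- the number field -/
  K : Type
  [field : Field K]
  [numberField : NumberField K]
  /-- the elliptic curve -/
  E : WeierstrassCurve K
  [elliptic : E.IsElliptic]
  /-- minimal models -/
  W : HeightOneSpectrum (𝓞 K) → WeierstrassCurve (𝓞 K)
  minimal : MinimalModels E W
  /-- the conductor -/
  N : ℝ
  /-- the numerator -/
  A : LFunction
  /-- the denominator -/
  B : LFunction
  N_pos : 0 < N
  conductor : A.Q = N * B.Q
  poles : A.r = B.r
  gamma : ∀ s : ℂ, 0 < s.re → ∏ j, Gammaℝ (s + A.α j) = Gammaℂ (s + 1 / 2) ^ Module.finrank ℚ K * ∏ j, Gammaℝ (s + B.α j)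
  series : ∃ σ : ℝ, ∀ s : ℂ, σ ≤ s.re → LSeries A.b s = LSeriesE W (s + 1 / 2) * LSeries B.b s

attribute [instance] Curve.field Curve.numberField Curve.elliptic

/-- The degree of the number field. -/
noncomputable def Curve.deg (X : Curve) : ℕ := Module.finrank ℚ X.K

/-- The entire function `F` is a continuation of `L(E/K, s)`. -/
def Continues (X : Curve) (F : ℂ → ℂ) : Prop := Differentiable ℂ F ∧ ∃ σ : ℝ, ∀ s : ℂ, σ ≤ s.re → F s = LSeriesE X.W s

/-- The norm `Nv` of a finite place. -/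
noncomputable def nrm {K : Type} [Field K] [NumberField K] (v : HeightOneSpectrum (𝓞 K)) : ℕ := Ideal.absNorm v.asIdeal

/-- The coefficient `a_v`: `Nv` minus the number of affine points of the reduction of the minimal model at `v`. -/
noncomputable def trace (X : Curve) (v : HeightOneSpectrum (𝓞 X.K)) : ℂ :=
  (nrm v : ℂ) - (Nat.card {xy : (𝓞 X.K ⧸ v.asIdeal) × (𝓞 X.K ⧸ v.asIdeal) //
    ((X.W v).map (Ideal.Quotient.mk v.asIdeal)).toAffine.Equation xy.1 xy.2} : ℂ)

open Classical in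
/-- `Nv` if the reduction at `v` is good and `0` if it is bad. -/
noncomputable def good (X : Curve) (v : HeightOneSpectrum (𝓞 X.K)) : ℂ := if (X.W v).Δ ∈ v.asIdeal then 0 else (nrm v : ℂ)

/-- The traces of the powers of Frobenius at `v`: `t_k = α^k + β^k` (`k ≥ 1`), where
`1 - a_v T + Nv T² = (1 - α T)(1 - β T)` if the reduction is good and `1 - a_v T = 1 - α T`, `β = 0` if it is bad. -/
noncomputable def frob (X : Curve) (v : HeightOneSpectrum (𝓞 X.K)) : ℕ → ℂ
  | 0 => 2
  | 1 => trace X v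
  | k + 2 => trace X v * frob X v (k + 1) - good X v * frob X v k

/-! ### The quadratic forms -/

/-- The trigonometric polynomials of degree at most `n` on `[-a, a]`, extended by `0`. -/
def Trig (a : ℝ) (n : ℕ) (f : ℝ → ℂ) : Prop := ∃ c : ℤ → ℂ, ∀ x : ℝ,
  f x = if |x| ≤ a then ∑ k ∈ Finset.Icc (-(n : ℤ)) n, c k * cexp ((Real.pi * k * x / a : ℝ) * I) else 0

/-- The Mellin transform of `f` in the logarithmic variable, centred at `c`. -/
noncomputable def M (c : ℂ) (f : ℝ → ℂ) (s : ℂ) : ℂ := ∫ x : ℝ, f x * cexp ((s - c) * x)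

/-- Weil's quadratic form of `E/K` for functions supported in `[-a, a]`: the conductor, the archimedean places (Gamma factor
`((2π)^(-s) Γ(s))^[K : ℚ]`) and the powers `Nv^k ≤ exp (2 a)` (`k ≥ 1`) of the norms of the finite places. -/
noncomputable def W (X : Curve) (a : ℝ) (f : ℝ → ℂ) : ℝ :=
  1 / (2 * Real.pi) * (∫ x : ℝ, (Real.log X.N + X.deg * (2 * (digamma (1 + x * I)).re - 2 * Real.log (2 * Real.pi))) *
    ‖M 1 f (1 + x * I)‖ ^ 2) -
  2 * (∑ᶠ x ∈ {x : HeightOneSpectrum (𝓞 X.K) × ℕ | 1 ≤ x.2 ∧ (nrm x.1 : ℝ) ^ x.2 ≤ Real.exp (2 * a)},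
    Real.log (nrm x.1) / (nrm x.1 : ℂ) ^ x.2 * frob X x.1 x.2 *
    ∫ y : ℝ, f (y + x.2 * Real.log (nrm x.1)) * (starRingEnd ℂ) (f y)).re

/-- Weil's quadratic form of an L-function `L` for functions supported in `[-a, a]`: the pole, the archimedean place
and the prime powers `n ≤ exp (2 a)`. -/
noncomputable def WL (L : LFunction) (a : ℝ) (f : ℝ → ℂ) : ℝ :=
  2 * L.r * (M (1 / 2) f 1 * (starRingEnd ℂ) (M (1 / 2) f 0)).re +
    1 / (2 * Real.pi) * (∫ t : ℝ, (Real.log L.Q +
      ∑ j, ((digamma ((1 / 2 + t * I + L.α j) / 2)).re - Real.log Real.pi)) * ‖M (1 / 2) f (1 / 2 + t * I)‖ ^ 2) -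
    2 * (∑ n ∈ Finset.Icc 1 ⌊Real.exp (2 * a)⌋₊, ArithmeticFunction.vonMangoldt n / Real.sqrt n * L.c n *
      ∫ x : ℝ, f (x + Real.log n) * (starRingEnd ℂ) (f x)).re

/-- The form domain: the square integrable functions `f` with support in `[-a, a]` and `∫ log (3 + |t|) |M f (1 + i t)|² dt < ∞`. -/
def FormDomain (a : ℝ) (f : ℝ → ℂ) : Prop := MemLp f 2 volume ∧ (∀ x : ℝ, a < |x| → f x = 0) ∧
  Integrable fun t : ℝ => Real.log (3 + |t|) * ‖M 1 f (1 + t * I)‖ ^ 2

/-- The functions of degree at most `ν ≤ ∞`: trigonometric polynomials, or (`ν = ∞`) all functions in the form domain. -/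
def Degree (a : ℝ) (ν : ℕ∞) (f : ℝ → ℂ) : Prop := (∃ n : ℕ, ν = n ∧ Trig a n f) ∨ (ν = ⊤ ∧ FormDomain a f)

/-- The degree `ν ≤ ∞` is at least `x`. -/
def Large (x : ℝ) (ν : ℕ∞) : Prop := ∀ n : ℕ, ν = n → x ≤ n

/-- `F ≥ -ε ∫ |f|²` for the functions of degree at most `ν` on `[-a, a]` which satisfy some `k` linear conditions. -/
def Bounded (F : ℝ → (ℝ → ℂ) → ℝ) (a : ℝ) (ν : ℕ∞) (k : ℕ) (ε : ℝ) : Prop := ∃ l : Fin k → ((ℝ → ℂ) →ₗ[ℂ] ℂ),
  ∀ f : ℝ → ℂ, Degree a ν f → (∀ i, l i f = 0) → -(ε * ∫ y : ℝ, ‖f y‖ ^ 2) ≤ F a f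

/-- The index of the family `F` of forms is `n`: this is the least number of linear conditions under which, for every `b`, for
arbitrarily large `a`, `F a f ≥ -exp (-b a) ∫ |f|²` on the form domain. -/
def Index (F : ℝ → (ℝ → ℂ) → ℝ) (n : ℕ) : Prop := (∀ b a₀ : ℝ, ∃ a : ℝ, a₀ ≤ a ∧ Bounded F a ⊤ n (Real.exp (-(b * a)))) ∧
  ∀ k : ℕ, (∀ b a₀ : ℝ, ∃ a : ℝ, a₀ ≤ a ∧ Bounded F a ⊤ k (Real.exp (-(b * a)))) → n ≤ k

/-! ### The poles, and the zeros off the line -/

/-- the order of `Λ_E` at `s`: positive for a zero, negative for a pole -/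
noncomputable def order (X : Curve) (s : ℂ) : ℤ := (analyticOrderNatAt X.A.Λ (s - 1 / 2) : ℤ) - analyticOrderNatAt X.B.Λ (s - 1 / 2)

/-- `s` is a pole, or a zero off the line `Re s = 1`; `ω` gives the orders. -/
def Bad (ω : ℂ → ℤ) (s : ℂ) : Prop := ω s < 0 ∨ (0 < ω s ∧ s.re ≠ 1)

/-- `s` is a pole at distance more than `δ` from the zeros, or a zero at distance more than `δ` from the poles and from the line. -/
def IsolatedBad (ω : ℂ → ℤ) (δ : ℝ) (s : ℂ) : Prop :=
  (ω s < 0 ∧ ∀ s' : ℂ, 0 < ω s' → δ < ‖s' - s‖) ∨ (0 < ω s ∧ δ < |s.re - 1| ∧ ∀ s' : ℂ, ω s' < 0 → δ < ‖s' - s‖)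

/-- There are at most `k` orbits `{s, 2 - conj s}` of bad points. -/
def AtMost (ω : ℂ → ℤ) (k : ℕ) : Prop := ∀ p : Fin (k + 1) → ℂ, (∀ j, Bad ω (p j)) →
  ∃ i j, i ≠ j ∧ (p i = p j ∨ p i = 2 - (starRingEnd ℂ) (p j))

/-- There are exactly `n` orbits of bad points. -/
def Exactly (ω : ℂ → ℤ) (n : ℕ) : Prop := AtMost ω n ∧ ∀ k : ℕ, AtMost ω k → n ≤ k

/-! ### The proof -/

open Q240.OW Pool.Agent.TH839.UH
open Pool.Agent.H921R2.TatePole (nm)

/-- the data of the proof -/
@[reducible] noncomputable def toTR (L : LFunction) : Pool.Agent.Q286.TR.LFunction where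
  m := L.m
  Q := L.Q
  α := L.α
  r := L.r
  b := L.b
  c := L.c
  w := L.w
  Λ := L.Λ
  one_le_m := L.one_le_m
  one_le_Q := L.one_le_Q
  α_re := L.α_re
  r_le := L.r_le
  b_one := L.b_one
  c_bound := L.c_bound
  euler := L.euler
  w_norm := L.w_norm
  entire := L.entire
  order := L.order
  fe := L.fe
  dirichlet := L.dirichlet

lemma EL_eq (X : Curve) (s : ℂ) : EL (trace X) (good X) s = LSeriesE X.W s := by
  classical
  unfold LSeriesE EL
  refine tprod_congr fun v => ?_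
  unfold localFactor NF.gv Pool.Agent.H921R2.TatePole.nm trace good nrm
  congr 1
  ring

open Pool.Agent.Q286 in
lemma quoE (X : Curve) : IX.QuoE (trace X) (good X) X.N (toTR X.A) (toTR X.B) := by
  classical
  refine ⟨⟨fun v => trace_le v _, fun v => ?_, fun v => ?_⟩, X.N_pos, X.conductor, X.poles, X.gamma, ?_⟩
  · show conj ((Ideal.absNorm v.asIdeal : ℂ) - ((_ : ℕ) : ℂ)) = _
    rw [map_sub, Complex.conj_natCast, Complex.conj_natCast]
    rfl
  · unfold good
    split_ifs
    · exact Or.inl rfl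
    · exact Or.inr rfl
  · obtain ⟨σ, hσ⟩ := X.series
    refine ⟨σ, fun s hs => ?_⟩
    rw [EL_eq]
    exact hσ s hs

open Pool.Agent.Q286 in
lemma frob_eq (X : Curve) (v : HeightOneSpectrum (𝓞 X.K)) : ∀ k : ℕ, frob X v k = TR.fr (trace X) (good X) v k ∧
    frob X v (k + 1) = TR.fr (trace X) (good X) v (k + 1) := by
  intro k
  induction k with
  | zero => exact ⟨rfl, rfl⟩
  | succ k ih =>
    refine ⟨ih.2, ?_⟩
    show trace X v * frob X v (k + 1) - good X v * frob X v k =
      trace X v * TR.fr (trace X) (good X) v (k + 1) - good X v * TR.fr (trace X) (good X) v k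
    rw [ih.1, ih.2]

open Pool.Agent.Q286 in
lemma W_eq (X : Curve) : W X = TR.WK (trace X) (good X) X.N := by
  funext a f
  unfold W TR.WK
  congr 1
  refine congrArg (fun z : ℂ => 2 * z.re) ?_
  refine finsum_mem_congr rfl fun x _ => ?_
  rw [(frob_eq X x.1 x.2).1]
  rfl

open Pool.Agent.Q286 in
lemma atMost_iff {ω : ℂ → ℤ} {k : ℕ} : AtMost ω k ↔ IX.AtMost 1 ω k := by
  have e : ∀ s : ℂ, 2 * (((1 : ℝ)) : ℂ) - (starRingEnd ℂ) s = 2 - (starRingEnd ℂ) s := fun s => by push_cast; ring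
  unfold AtMost IX.AtMost Bad
  simp only [e]

open Pool.Agent.Q286 in
lemma exactly_iff {ω : ℂ → ℤ} {n : ℕ} : Exactly ω n ↔ IX.Exactly 1 ω n := by
  unfold Exactly IX.Exactly
  rw [atMost_iff]
  refine and_congr_right fun _ => forall_congr' fun k => ?_
  rw [atMost_iff]

open Pool.Agent.Q286 in
lemma cond_iff {F : ℝ → (ℝ → ℂ) → ℝ} {k : ℕ} : (∀ b a₀ : ℝ, ∃ a : ℝ, a₀ ≤ a ∧ Bounded F a ⊤ k (Real.exp (-(b * a)))) ↔
    IX.Cond F (XG.Deg 1) k := by
  unfold Bounded IX.Cond
  refine forall_congr' fun b => forall_congr' fun a₀ => ?_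
  constructor
  · rintro ⟨a, ha, l, hl⟩
    exact ⟨a, l, ha, hl⟩
  · rintro ⟨a, l, ha, hl⟩
    exact ⟨a, ha, l, hl⟩

open Pool.Agent.Q286 in
lemma index_iff {F : ℝ → (ℝ → ℂ) → ℝ} {n : ℕ} : Index F n ↔ IX.Index F (XG.Deg 1) n := by
  unfold Index IX.Index
  rw [cond_iff]
  refine and_congr_right fun _ => forall_congr' fun j => ?_
  rw [cond_iff]

open Pool.Agent.Q286 in
/-- **The theorem.** -/
theorem result (X : Curve) :
    -- (1) one scale
    (∀ b : ℝ, b < 2 * Real.pi * (X.A.Q * X.B.Q) ^ (-(1 / (X.A.m + X.B.m : ℝ))) → ∃ C κ a₀ b₀ : ℝ, 0 < C ∧ 0 < κ ∧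
      ∀ (a Y : ℝ) (ν : ℕ∞) (k : ℕ), a₀ ≤ a → b₀ * a ≤ Y → Y ≤ Real.exp (2 * a / (X.A.m + X.B.m)) →
        Large (C * a * Real.exp (2 * a / (X.A.m + X.B.m))) ν → (k : ℝ) ≤ Real.exp (κ * Y) → Bounded (W X) a ν k (Real.exp (-Y)) →
        ∀ p : Fin (k + 1) → ℂ, (∀ j, IsolatedBad (order X) (Real.exp (-(κ * Y / a))) (p j) ∧
          |(p j).im| ≤ b * Real.exp (2 * a / (X.A.m + X.B.m))) →
        ∃ i j, i ≠ j ∧ (‖p i - p j‖ ≤ 2 * Real.exp (-(κ * Y / a)) ∨ ‖p i - (2 - (starRingEnd ℂ) (p j))‖ ≤ 2 * Real.exp (-(κ * Y / a)))) ∧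
    -- (2) the index
    (∀ k : ℕ, AtMost (order X) k ↔ ∀ a : ℝ, 0 < a → ∀ ν : ℕ∞, Bounded (W X) a ν k 0) ∧
    (∃ C : ℝ, 0 < C ∧ ∀ k : ℕ, AtMost (order X) k ↔ ∀ b a₀ : ℝ, ∃ (a : ℝ) (ν : ℕ∞), a₀ ≤ a ∧
      Large (C * a * Real.exp (2 * a / (X.A.m + X.B.m))) ν ∧ Bounded (W X) a ν k (Real.exp (-(b * a)))) ∧
    -- (3) the continuation with the Riemann hypothesis
    ((∃ F : ℂ → ℂ, Continues X F ∧ ∀ s : ℂ, 0 < s.re → F s = 0 → s.re = 1) ↔
      ∀ (a : ℝ) (ν : ℕ∞) (f : ℝ → ℂ), 0 < a → Degree a ν f → 0 ≤ W X a f) ∧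
    ((∃ F : ℂ → ℂ, Continues X F ∧ ∀ s : ℂ, 0 < s.re → F s = 0 → s.re = 1) ↔
      ∀ b a₀ : ℝ, ∃ a : ℝ, a₀ ≤ a ∧ ∀ f : ℝ → ℂ, FormDomain a f → -(Real.exp (-(b * a)) * ∫ y : ℝ, ‖f y‖ ^ 2) ≤ W X a f) ∧
    -- (4) the continuation
    (∀ n : ℕ, Index (WL X.A) n ↔ Exactly (fun s => (analyticOrderNatAt X.A.Λ (s - 1 / 2) : ℤ)) n) ∧
    ∀ n : ℕ, Index (WL X.A) n →
      ((∃ F : ℂ → ℂ, Continues X F) ↔ ∀ p q : ℕ, 1 ≤ p → 1 ≤ q → Index (fun a f => q * WL X.A a f + p * W X a f) n) := by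
  obtain ⟨H, hA, hC, hR⟩ := IX.outK IX.jx (quoE X)
  rw [← W_eq] at H hC
  simp only [EL_eq] at hC hR
  have eM : (((X.A.m + X.B.m : ℕ)) : ℝ) = X.A.m + X.B.m := by push_cast; rfl
  have H' : IX.OutI (W X) (XG.Deg 1) (order X) 1 ((X.A.m + X.B.m : ℕ) : ℝ) (X.A.Q * X.B.Q) := H
  rw [eM] at H'
  have er : ∀ s : ℂ, 2 * (((1 : ℝ)) : ℂ) - (starRingEnd ℂ) s = 2 - (starRingEnd ℂ) s := fun s => by push_cast; ring
  obtain ⟨C, hC0, hidx⟩ := H'.idx
  have weak : ∀ k : ℕ, (∀ b a₀ : ℝ, ∃ (a : ℝ) (ν : ℕ∞), a₀ ≤ a ∧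
      Large (C * a * Real.exp (2 * a / (X.A.m + X.B.m))) ν ∧ Bounded (W X) a ν k (Real.exp (-(b * a)))) → AtMost (order X) k := by
    intro k h
    refine atMost_iff.2 ((hidx k).2 fun b a₀ => ?_)
    obtain ⟨a, ν, ha, hν, l, hl⟩ := h b a₀
    exact ⟨a, ν, l, ha, hν, hl⟩
  have strong : ∀ k : ℕ, AtMost (order X) k → ∀ a : ℝ, 0 < a → ∀ ν : ℕ∞, Bounded (W X) a ν k 0 := by
    intro k h a ha ν
    obtain ⟨l, hl⟩ := (hidx k).1 (atMost_iff.1 h) a ha
    refine ⟨l, fun f hf hlf => ?_⟩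
    rw [zero_mul, neg_zero]
    exact hl ν f hf hlf
  have mono : ∀ {a : ℝ} {ν : ℕ∞} {k : ℕ} (b : ℝ), Bounded (W X) a ν k 0 → Bounded (W X) a ν k (Real.exp (-(b * a))) := by
    rintro a ν k b ⟨l, hl⟩
    refine ⟨l, fun f hf hlf => le_trans ?_ (hl f hf hlf)⟩
    have h2 : 0 ≤ ∫ y : ℝ, ‖f y‖ ^ 2 := integral_nonneg fun y => by positivity
    have h3 := mul_nonneg (Real.exp_pos (-(b * a))).le h2
    rw [zero_mul]
    linarith
  have top : ∀ x : ℝ, Large x ⊤ := fun x n hn => absurd hn.symm (ENat.natCast_ne_top n)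
  have hcrit : (∃ F : ℂ → ℂ, Continues X F ∧ ∀ s : ℂ, 0 < s.re → F s = 0 → s.re = 1) ↔ AtMost (order X) 0 := by
    rw [atMost_iff]
    refine Iff.trans ?_ hR
    exact ⟨fun ⟨F, ⟨h1, h2⟩, h3⟩ => ⟨F, h1, h2, h3⟩, fun ⟨F, h1, h2, h3⟩ => ⟨F, ⟨h1, h2⟩, h3⟩⟩
  refine ⟨fun b hb => ?_, fun k => ⟨strong k, fun h => ?_⟩, ⟨C, hC0, fun k => ⟨fun h b a₀ => ?_, weak k⟩⟩, ?_, ?_, fun n => ?_,
    fun n hn => ?_⟩
  · obtain ⟨C', κ, a₀, b₀, hC', hκ, h⟩ := H'.one b hb
    refine ⟨C', κ, a₀, b₀, hC', hκ, fun a Y ν k ha hY1 hY2 hν hk hB p hp => ?_⟩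
    obtain ⟨l, hl⟩ := hB
    obtain ⟨i, j, hij, h3⟩ := h a Y ν k l ha hY1 hY2 hν hk hl p hp
    refine ⟨i, j, hij, ?_⟩
    rw [er] at h3
    exact h3
  · exact weak k fun b a₀ => ⟨max a₀ 1, ⊤, le_max_left _ _, top _, mono b (h _ (lt_of_lt_of_le one_pos (le_max_right _ _)) ⊤)⟩
  · exact ⟨max a₀ 1, ⊤, le_max_left _ _, top _, mono b (strong k h _ (lt_of_lt_of_le one_pos (le_max_right _ _)) ⊤)⟩
  · rw [hcrit]
    constructor
    · intro h a ν f ha hf
      obtain ⟨l, hl⟩ := strong 0 h a ha ν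
      have := hl f hf (fun i => i.elim0)
      rwa [zero_mul, neg_zero] at this
    · intro h
      refine weak 0 fun b a₀ => ⟨max a₀ 1, ⊤, le_max_left _ _, top _, mono b ⟨fun i => i.elim0, fun f hf _ => ?_⟩⟩
      rw [zero_mul, neg_zero]
      exact h _ ⊤ f (lt_of_lt_of_le one_pos (le_max_right _ _)) hf
  · rw [hcrit]
    constructor
    · intro h b a₀
      obtain ⟨l, hl⟩ := mono b (strong 0 h _ (lt_of_lt_of_le one_pos (le_max_right a₀ 1)) ⊤)
      exact ⟨max a₀ 1, le_max_left _ _, fun f hf => hl f (Or.inr ⟨rfl, hf⟩) (fun i => i.elim0)⟩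
    · intro h
      refine weak 0 fun b a₀ => ?_
      obtain ⟨a, ha, hf⟩ := h b a₀
      refine ⟨a, ⊤, ha, top _, fun i => i.elim0, fun f hf' _ => hf f ?_⟩
      rcases hf' with ⟨n, hn, -⟩ | ⟨-, hf'⟩
      · exact absurd hn.symm (ENat.natCast_ne_top n)
      · exact hf'
  · rw [index_iff, exactly_iff]
    exact (hA n).symm
  · have h3 := hC n (index_iff.1 hn)
    refine Iff.trans ?_ (h3.trans ?_)
    · exact Iff.rfl
    · refine forall_congr' fun p => forall_congr' fun q => forall_congr' fun _ => forall_congr' fun _ => ?_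
      exact index_iff.symm

end Pool.Agent.Results.MP_7ed9c3_nt.IndexOfWeilForm
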