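import Mathlib
import Pool.Agent.Q7.GR.Grow
import Pool.Agent.Q7.RL.Orders

/-!
# Holomorphy of L(E/F, s) relative to a subfield, where the order grows by at most two

`M/K` is a Galois extension of number fields with group `M ≃ₐ[K] M`, an arbitrary finite group, `L` is
a field between `K` and `M` which is Galois over `K`, and `E` is an elliptic curve over `K` with an
integral equation `W` (`IsModel E W`).

The L-functions are real ones. `LSeries V` is the Euler product `L(E/F, s)` of the problem, computed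
from the models `V`, minimal at all primes of `F` (`MinimalModels`), `Re s > 3/2`.
`Pool.Agent.Q92.RT.twistedL M W φ` is `L(E ⊗ φ, s)` for a class function `φ` of the Galois group:
`exp ∑ φ(Frob_v ^ n) (α_v ^ n + β_v ^ n) / (n q_v ^ (n s))` over `n ≥ 1` and the primes `v` of `K` which do not
divide `6` and the discriminant of `W` and are unramified in `M`; the finitely many Euler factors left
out have no zeros and poles for `Re s ≥ 1`. `Continues f g` says that `f` is meromorphic on `ℂ` and
equal to `g` for `Re s > 3/2`; `HasOrder g s₀ n` and `LOrder E s₀ n` say that `g`, or `L(E, s)`, has a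
meromorphic continuation to `ℂ`, of order `n` at `s₀`.

`Pool.Agent.Q92.RT.Automorphic M W s₀` is the only assumption: `L(E ⊗ χ, s)` has a meromorphic
continuation for the irreducible characters `χ` of the Galois group, and `L(E/M^H ⊗ ψ, s)` has one
which is holomorphic at `s₀` for the linear characters `ψ` of the SOLVABLE subgroups `H`. These are
instances of the conjecture, known if `E` is automorphic over `M` (Brauer; solvable descent). For the
other subgroups nothing is known.

The characters `χ` which are not trivial on the Galois group `L.fixingSubgroup` of `M/L` are the ones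
which do not come from the Galois group of `L/K`; the twists with them are called new.
-/

set_option autoImplicit false

open NumberField IsDedekindDomain Pool.Agent.H541R3.ART Pool.Agent.W446.AS
  Pool.Agent.H302R2 Pool.Agent.H302R3
  Pool.Agent.Q7.TZ Pool.Agent.Q7.SZ Pool.Agent.Q7.GR Pool.Agent.Q7.RL Pool.Agent.Q92.RT
  Pool.Agent.W353.NF Pool.Agent.H341R2.EC
open Pool.Agent.TH322.BC.Edge (MinimalModels LSeries)

/-- Let `E` be an elliptic curve over `K`, let `K ⊆ L ⊆ M` with `L/K` and `M/K` Galois, let `s₀` be a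
point with `Re s₀ ≥ 1`, and let `n χ` and `r F` be the orders at `s₀` of `L(E ⊗ χ, s)` and `L(E/F, s)`.
(1) No growth: let `r M = r L`, and let `M/L` be solvable, or let every element of the Galois group of
`L/K` have prime power order. Then the new twists `L(E ⊗ χ, s)` are holomorphic and nonzero at `s₀`,
and `r F = r (F ∩ L)` for all fields `F` between `K` and `M`.
(2) Growth at most two: let `M/L` be solvable and `r M ≤ r L + 2` (`r L` and the Galois group of `L/K`
are arbitrary). Then `r L ≤ r M`; for all fields `F` between `K` and `M` the quotient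
`L(E/F, s) / L(E/F ∩ L, s)` is holomorphic at `s₀`, that is, `r (F ∩ L) ≤ r F`; `L(E/F ⊗ ψ, s)` is
holomorphic at `s₀` for every linear character `ψ` of the Galois group of `M/F` which is not trivial
on the one of `M/FL`; all poles of new twists at `s₀` are simple and all zeros at most double; and if
`r M = r L + 1`, then exactly one new twist vanishes at `s₀`, a simple zero of `L(E ⊗ l, s)` for a
linear character `l`, and the others are holomorphic and nonzero.
(3) Let `M/L` be solvable, let the order of `L(E/M, s)` exceed the one of `L(E/L, s)` by at most two at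
all points with `Re s ≥ 1`, and let the conjecture hold for the fields between `K` and `L`, in the form
that `L(E/F, s)` has a meromorphic continuation without poles for `Re s ≥ 1`. Then it holds in this
form for ALL fields `F` between `K` and `M`; and if the continuation satisfies the functional equation,
then `L(E/F, s)` has an entire continuation. -/
theorem Pool.Agent.Results.MP_7ed9c3_nt.RelativeHolomorphy.result
    (K M : Type) [Field K] [NumberField K] [Field M] [NumberField M] [Algebra K M] [IsGalois K M]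
    (E : WeierstrassCurve K) (hE : E.IsElliptic) (W : WeierstrassCurve (𝓞 K)) (hW : IsModel E W)
    (L : IntermediateField K M) [IsGalois K L] :
    (∀ s₀ : ℂ, 1 ≤ s₀.re → Automorphic M W s₀ →
      ∃ (n : ((M ≃ₐ[K] M) → ℂ) → ℤ) (r : IntermediateField K M → ℤ), Orders E W s₀ n r ∧
        (r ⊤ = r L → (Group.IsSolvable L.fixingSubgroup ∨
            ∀ g : M ≃ₐ[K] M, ∃ p k : ℕ, p.Prime ∧ g ^ p ^ k ∈ L.fixingSubgroup) →
          (∀ χ ∈ Irr (M ≃ₐ[K] M), (∃ x ∈ L.fixingSubgroup, χ x ≠ χ 1) → n χ = 0) ∧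
          ∀ F, r F = r (F ⊓ L)) ∧
        (Group.IsSolvable L.fixingSubgroup → r ⊤ ≤ r L + 2 →
          r L ≤ r ⊤ ∧
          (∀ F, r (F ⊓ L) ≤ r F) ∧
          (∀ (H : Subgroup (M ≃ₐ[K] M)) (ψ : H →* ℂˣ),
            (∃ x : H, (x : M ≃ₐ[K] M) ∈ L.fixingSubgroup ∧ ψ x ≠ 1) →
            ∃ k : ℤ, 0 ≤ k ∧ HasOrder (twistedL M W (induced H ψ)) s₀ k) ∧
          (∀ χ ∈ Irr (M ≃ₐ[K] M), (∃ x ∈ L.fixingSubgroup, χ x ≠ χ 1) → -1 ≤ n χ ∧ n χ ≤ 2) ∧
          (r ⊤ = r L + 1 → ∃ l : (M ≃ₐ[K] M) →* ℂˣ, (∃ x ∈ L.fixingSubgroup, l x ≠ 1) ∧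
            n (fun g => ((l g : ℂˣ) : ℂ)) = 1 ∧
            ∀ χ ∈ Irr (M ≃ₐ[K] M), (∃ x ∈ L.fixingSubgroup, χ x ≠ χ 1) →
              χ ≠ (fun g => ((l g : ℂˣ) : ℂ)) → n χ = 0))) ∧
    (Group.IsSolvable L.fixingSubgroup →
      (∀ s₀ : ℂ, 1 ≤ s₀.re → Automorphic M W s₀ ∧ ∃ k l : ℤ, k ≤ l + 2 ∧
        LOrder (E.map (algebraMap K M)) s₀ k ∧ LOrder (E.map (algebraMap K L)) s₀ l) →
      (∀ F : IntermediateField K M, F ≤ L → ∀ s₀ : ℂ, 1 ≤ s₀.re →
        ∃ k : ℤ, 0 ≤ k ∧ LOrder (E.map (algebraMap K F)) s₀ k) →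
      ∀ (F : IntermediateField K M) (V : HeightOneSpectrum (𝓞 F) → WeierstrassCurve (𝓞 F)),
        MinimalModels (E.map (algebraMap K F)) V →
        (∃ f : ℂ → ℂ, Continues f (LSeries V) ∧ ∀ s : ℂ, 1 ≤ s.re → AnalyticAt ℂ f s) ∧
        ∀ f : ℂ → ℂ, Continues f (LSeries V) → FunctionalEquation (Module.finrank ℚ F) f →
          ∃ g : ℂ → ℂ, Differentiable ℂ g ∧ ∀ s : ℂ, 3 / 2 < s.re → g s = LSeries V s) := by
  classical
  have mono : ∀ s₀ : ℂ, 1 ≤ s₀.re → Automorphic M W s₀ → ∀ (n : ((M ≃ₐ[K] M) → ℂ) → ℤ)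
      (r : IntermediateField K M → ℤ), Orders E W s₀ n r →
      Group.IsSolvable L.fixingSubgroup → r ⊤ ≤ r L + 2 → ∀ F, r (F ⊓ L) ≤ r F := by
    intro s₀ hs a n r ho hso h2 F
    obtain ⟨m, hm⟩ := exists_newPart (TwistData.ofCurve a) L.fixingSubgroup hso
      (ho.bot hE hW hs a) (ho.lin hE hW hs a L)
    have h3 := hm.mono h2 F.fixingSubgroup
    rw [← fixingSubgroup_inf, ho.lin hE hW hs a, ho.lin hE hW hs a] at h3
    exact_mod_cast h3
  refine ⟨fun s₀ hs a => ?_, fun hso h hL F V hV => ?_⟩
  · obtain ⟨n, r, ho⟩ := exists_orders (M := M) hE hW hs a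
    refine ⟨n, r, ho, fun h hc => ?_, fun hso h2 => ?_⟩
    · have hconst := no_growth (TwistData.ofCurve a) L.fixingSubgroup hc
        (ho.bot hE hW hs a) (by rw [ho.lin hE hW hs a L, h])
      have htriv : ∀ χ ∈ Irr (M ≃ₐ[K] M), (TwistData.ofCurve a).ord χ ≠ 0 →
          ∀ x ∈ L.fixingSubgroup, χ x = χ 1 := by
        intro χ hχ hne
        refine const_pr L.fixingSubgroup hconst hχ ?_
        rw [pr_theta _ hχ]
        exact_mod_cast hne
      refine ⟨fun χ hχ hnew => ?_, fun F => ?_⟩
      · obtain ⟨x, hx, hx1⟩ := hnew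
        by_contra hcon
        exact hx1 (htriv χ hχ (by rw [ho.ord a hχ]; exact hcon) x hx)
      · have h3 := (TwistData.ofCurve a).order_sup htriv F.fixingSubgroup
        rw [← fixingSubgroup_inf, ho.lin hE hW hs a, ho.lin hE hW hs a] at h3
        exact_mod_cast h3.symm
    · obtain ⟨m, hm⟩ := exists_newPart (TwistData.ofCurve a) L.fixingSubgroup hso
        (ho.bot hE hW hs a) (ho.lin hE hW hs a L)
      refine ⟨?_, mono s₀ hs a n r ho hso h2, fun H ψ hψ => ?_, fun χ hχ hne => ?_, fun h1 => ?_⟩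
      · obtain ⟨d, hd, -⟩ := hm.deg
        omega
      · obtain ⟨k, hk⟩ := Lin_order_ne_top (TwistData.ofCurve a) H ψ
        refine ⟨k, ?_, (ind_iff a H ψ k).2 hk⟩
        have h3 := hm.lin_nonneg h2 H ψ hψ
        rw [hk] at h3
        exact_mod_cast h3
      · have h3 := hm.bounds h2 hχ hne
        rwa [ho.ord a hχ] at h3
      · obtain ⟨l, hl1, hl2, hl3⟩ := hm.stark h1
        refine ⟨l, hl1, ?_, fun χ hχ hne hχl => ?_⟩
        · rw [← ho.ord a (lin_irr l), hl2]
        · rw [← ho.ord a hχ, hl3 χ hχ hne hχl]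
  · have hEF : (E.map (algebraMap K F)).IsElliptic := inferInstance
    refine entire_of_lorder hEF (fun s hs => ?_) hV _
    obtain ⟨a, k, l, hkl, hk, hl⟩ := h s hs
    obtain ⟨n, r, ho⟩ := exists_orders (M := M) hE hW hs a
    have hM := ho.eq_of_lorder_top hE hW hs a hk
    have hLl := ho.eq_of_lorder hE L hl
    obtain ⟨j, hj, hj2⟩ := hL (F ⊓ L) inf_le_right s hs
    have h4 := ho.eq_of_lorder hE (F ⊓ L) hj2
    have h5 := mono s hs a n r ho hso (by omega) F
    exact ⟨r F, by omega, ho.field F⟩
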